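import Mathlib
import Pool.Agent.Work.MP_f36782_h69.Games

set_option autoImplicit false

/-!
If a set `A` of infinite sets of natural numbers is not Ramsey (all integer games which are
continuous preimages of `A` being determined), then there is a map from the infinite sets to
Cantor space which agrees, below every infinite set, with every Ramsey measurable map.
-/

namespace Pool.Agent.Work.RamseyAD

/-- `P` is completely Ramsey below `H`: for every finite `s` and every infinite `K ⊆ H` there is
an infinite `K' ⊆ K` such that either all `s ∪ y`, `y ⊆ K'` infinite, belong to `P` or none does. -/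
def CRamsey (H : Set ℕ) (P : Set (Set ℕ)) : Prop :=
  ∀ (s : Finset ℕ) (K : Set ℕ), K ⊆ H → K.Infinite → ∃ K' : Set ℕ, K' ⊆ K ∧ K'.Infinite ∧
    ((∀ y : Set ℕ, y ⊆ K' → y.Infinite → (s : Set ℕ) ∪ y ∈ P) ∨
      (∀ y : Set ℕ, y ⊆ K' → y.Infinite → (s : Set ℕ) ∪ y ∉ P))

/-- the determinacy of the complementary games -/
theorem det_compl (A : Set (Set ℕ))
    (hdet : ∀ f : (ℕ → ℕ) → (ℕ → ℕ), Continuous f → (∀ z, StrictMono (f z)) →
      Determined {z | Set.range (f z) ∈ A})
    (f : (ℕ → ℕ) → (ℕ → ℕ)) (hf : Continuous f) (hm : ∀ z, StrictMono (f z)) :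
    Determined {z | Set.range (f z) ∉ A} := by
  have hc : Continuous fun z : ℕ → ℕ => f (fun n => z (n + 1)) :=
    hf.comp (continuous_pi fun n => continuous_apply (n + 1))
  have hhist : ∀ (z z' : ℕ → ℕ), (∀ n, z' (n + 1) = z n) → ∀ n,
      hist z' (n + 1) = z' 0 :: hist z n := by
    intro z z' h n
    simp only [hist, List.range_succ_eq_map, List.map_cons, List.map_map]
    congr 1
    apply List.map_congr_left
    intro k _
    exact h k
  rcases hdet _ hc (fun z => hm _) with ⟨σ, hσ⟩ | ⟨τ, hτ⟩
  · right
    refine ⟨fun l => σ (σ [] :: l), fun z hz => ?_⟩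
    let z' : ℕ → ℕ := fun n => Nat.casesOn n (σ []) z
    have h0 : z' 0 = σ [] := rfl
    have h1 : ∀ n, z' (n + 1) = z n := fun n => rfl
    have := hσ z' (by
      intro n
      rcases n with _ | n
      · exact h0
      · show z' (2 * n + 1 + 1) = σ (hist z' (2 * n + 1 + 1))
        rw [h1, hhist z z' h1, h0, hz n])
    intro hcon
    apply hcon
    exact this
  · left
    refine ⟨fun l => τ (0 :: l), fun z hz => ?_⟩
    let z' : ℕ → ℕ := fun n => Nat.casesOn n 0 z
    have h0 : z' 0 = 0 := rfl
    have h1 : ∀ n, z' (n + 1) = z n := fun n => rfl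
    exact hτ z' (by
      intro n
      show z' (2 * n + 1) = τ (hist z' (2 * n + 1))
      rw [h1, hhist z z' h1, h0, hz n])

/-- The player who makes all moves with number in the range of `a` can avoid `D` if no infinite
subset of the range of `h` is homogeneous for `D` in the positive sense. -/
theorem force (D : Set (Set ℕ))
    (hdet : ∀ f : (ℕ → ℕ) → (ℕ → ℕ), Continuous f → (∀ z, StrictMono (f z)) →
      Determined {z | Set.range (f z) ∈ D})
    (a : ℕ → ℕ) (ha : StrictMono a) (h : ℕ → ℕ) (hh : StrictMono h)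
    (hD : ∀ g : ℕ → ℕ, StrictMono g → ∃ k : ℕ → ℕ, StrictMono k ∧ Set.range (h ∘ g ∘ k) ∉ D) :
    ∃ τ : List ℕ → ℕ, ∀ z : ℕ → ℕ, (∀ n, z (2 * n + 1) = τ (hist z (2 * n + 1))) →
      Set.range (h ∘ outcome (Set.range a) z ∘ a) ∉ D := by
  classical
  set S : Set ℕ := Set.range a with hS
  have hcont : Continuous fun z : ℕ → ℕ => h ∘ outcome S z ∘ a := by
    refine continuous_pi fun n => ?_
    exact (continuous_of_discreteTopology (f := h)).comp
      ((continuous_apply (a n)).comp (continuous_outcome S))
  have hmono : ∀ z : ℕ → ℕ, StrictMono (h ∘ outcome S z ∘ a) := fun z =>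
    hh.comp ((outcome_strictMono S z).comp ha)
  rcases hdet _ hcont hmono with ⟨σ, hσ⟩ | ⟨τ, hτ⟩
  · exfalso
    obtain ⟨g, hg, hplay⟩ := play (fun l => if l.length % 2 = 0 then σ l else 0) (val S)
      (fun j => 2 * a j + 1) (fun i j hij => by have := ha hij; dsimp only; omega)
    obtain ⟨k, hk, hkD⟩ := hD g hg
    obtain ⟨z, hz1, hz2⟩ := hplay k hk
    have hz : ∀ n, z (2 * n) = σ (hist z (2 * n)) := by
      intro n
      rw [hz1 (2 * n) (fun j => by omega), hist_length, if_pos (by omega)]
    have hx : Set.range (h ∘ outcome S z ∘ a) ∈ D := hσ z hz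
    have heq : h ∘ outcome S z ∘ a = h ∘ g ∘ k := by
      funext j
      simp only [Function.comp_apply]
      have h1 := hz2 j
      rw [val_hist S z (n := a j) (by omega)] at h1
      rw [← h1]
      unfold outcome cum
      have h2 : ctr S (a j) = 2 * a j + 1 := by
        unfold ctr; rw [if_pos]; rw [hS]; exact ⟨j, rfl⟩
      dsimp only
      rw [h2]
    rw [heq] at hx
    exact hkD hx
  · exact ⟨τ, fun z hz => hτ z hz⟩

/-- the first `2 n` moves of the play of the strategy `τ` of player II against the sequence `w`: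
player I plays `w j` in the rounds `j ∉ S` and `0` in the rounds `j ∈ S` -/
noncomputable def sim (τ : List ℕ → ℕ) (S : Set ℕ) (w : ℕ → ℕ) : ℕ → List ℕ
  | 0 => []
  | n + 1 =>
    let l := sim τ S w n ++ [open Classical in if n ∈ S then 0 else w n]
    l ++ [τ l]

theorem sim_succ (τ : List ℕ → ℕ) (S : Set ℕ) (w : ℕ → ℕ) (n : ℕ) :
    sim τ S w (n + 1) = (sim τ S w n ++ [open Classical in if n ∈ S then 0 else w n]) ++
      [τ (sim τ S w n ++ [open Classical in if n ∈ S then 0 else w n])] := rfl

theorem sim_length (τ : List ℕ → ℕ) (S : Set ℕ) (w : ℕ → ℕ) (n : ℕ) :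
    (sim τ S w n).length = 2 * n := by
  induction n with
  | zero => rfl
  | succ n ih => rw [sim_succ]; simp [ih]; ring

theorem sim_congr (τ : List ℕ → ℕ) (S : Set ℕ) (w w' : ℕ → ℕ) (n : ℕ)
    (h : ∀ j, j < n → w j = w' j) : sim τ S w n = sim τ S w' n := by
  induction n with
  | zero => rfl
  | succ n ih =>
    rw [sim_succ, sim_succ, ih (fun j hj => h j (by omega)), h n (by omega)]

/-- the infinite play -/
noncomputable def simPlay (τ : List ℕ → ℕ) (S : Set ℕ) (w : ℕ → ℕ) (n : ℕ) : ℕ :=
  open Classical in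
  if n % 2 = 0 then (if n / 2 ∈ S then 0 else w (n / 2))
  else τ (sim τ S w (n / 2) ++ [if n / 2 ∈ S then 0 else w (n / 2)])

theorem simPlay_even (τ : List ℕ → ℕ) (S : Set ℕ) (w : ℕ → ℕ) (n : ℕ) :
    simPlay τ S w (2 * n) = open Classical in if n ∈ S then 0 else w n := by
  classical
  unfold simPlay
  rw [if_pos (by omega)]
  have : 2 * n / 2 = n := by omega
  rw [this]

theorem simPlay_odd (τ : List ℕ → ℕ) (S : Set ℕ) (w : ℕ → ℕ) (n : ℕ) :
    simPlay τ S w (2 * n + 1) =
      τ (sim τ S w n ++ [open Classical in if n ∈ S then 0 else w n]) := by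
  classical
  unfold simPlay
  rw [if_neg (by omega)]
  have : (2 * n + 1) / 2 = n := by omega
  rw [this]

theorem hist_simPlay (τ : List ℕ → ℕ) (S : Set ℕ) (w : ℕ → ℕ) (n : ℕ) :
    hist (simPlay τ S w) (2 * n) = sim τ S w n := by
  induction n with
  | zero => rfl
  | succ n ih =>
    have h2 : 2 * (n + 1) = 2 * n + 1 + 1 := by ring
    rw [h2, hist_succ, hist_succ, ih, simPlay_even, simPlay_odd, sim_succ]

/-- the play follows the strategy -/
theorem simPlay_follow (τ : List ℕ → ℕ) (S : Set ℕ) (w : ℕ → ℕ) (n : ℕ) :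
    simPlay τ S w (2 * n + 1) = τ (hist (simPlay τ S w) (2 * n + 1)) := by
  rw [hist_succ, hist_simPlay, simPlay_even, simPlay_odd]

/-- All strategies played against each other on one time line: the move number `n` is made by the
player `(unpair n).1`, who uses the strategy `T i b`, where the bit `b` is a function `B i` of the
first `q i` moves, and `q i` is not later than the first move of the player `i`. -/
theorem together (T : ℕ → Bool → List ℕ → ℕ) (B : ℕ → List ℕ → Bool) (S : ℕ → Set ℕ)
    (own : ℕ → ℕ) (q : ℕ → ℕ) (hS : ∀ i n, n ∈ S i ↔ own n = i)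
    (hq : ∀ i n, n ∈ S i → q i ≤ n) :
    ∃ w : ℕ → ℕ, ∀ i, ∃ z : ℕ → ℕ,
      (∀ n, z (2 * n + 1) = T i (B i (hist w (q i))) (hist z (2 * n + 1))) ∧
      outcome (S i) z = cum w := by
  classical
  -- the next move
  let next : List ℕ → ℕ := fun l =>
    T (own l.length) (B (own l.length) (l.take (q (own l.length))))
      (sim (T (own l.length) (B (own l.length) (l.take (q (own l.length))))) (S (own l.length))
        (fun j => l.getD j 0) l.length ++ [0])
  let W : ℕ → List ℕ := fun n => Nat.rec [] (fun _ l => l ++ [next l]) n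
  have hW0 : W 0 = [] := rfl
  have hW1 : ∀ n, W (n + 1) = W n ++ [next (W n)] := fun n => rfl
  let w : ℕ → ℕ := fun n => next (W n)
  have hhist : ∀ n, hist w n = W n := by
    intro n
    induction n with
    | zero => rfl
    | succ n ih => rw [hist_succ, ih, hW1]
  have hw : ∀ n, w n = next (hist w n) := fun n => by rw [hhist]
  have htake : ∀ m n, m ≤ n → (hist w n).take m = hist w m := by
    intro m n hmn
    simp only [hist, ← List.map_take, List.take_range, min_eq_left hmn]
  refine ⟨w, fun i => ?_⟩
  set τ := T i (B i (hist w (q i))) with hτ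
  refine ⟨simPlay τ (S i) w, fun n => simPlay_follow τ (S i) w n, ?_⟩
  unfold outcome
  congr 1
  funext n
  unfold ctr
  by_cases hn : n ∈ S i
  · rw [if_pos hn, simPlay_odd, if_pos hn, hw n]
    have hown : own n = i := (hS i n).1 hn
    show _ = T (own (hist w n).length) (B (own (hist w n).length)
      ((hist w n).take (q (own (hist w n).length))))
      (sim (T (own (hist w n).length) (B (own (hist w n).length)
        ((hist w n).take (q (own (hist w n).length))))) (S (own (hist w n).length))
        (fun j => (hist w n).getD j 0) (hist w n).length ++ [0])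
    rw [hist_length, hown, htake _ _ (hq i n hn), ← hτ]
    rw [sim_congr τ (S i) w (fun j => (hist w n).getD j 0) n
      (fun j hj => (hist_getD w hj).symm)]
  · rw [if_neg hn, simPlay_even, if_neg hn]

end Pool.Agent.Work.RamseyAD
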