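import Mathlib
import Pool.Agent.Work.MP_f36782_h20.Bracket

set_option autoImplicit false

namespace Pool.Agent.Work.RamseyAD

/-- homogeneity above the finite set `s` -/
def Hom (P : Set (Set ℕ)) (s : Finset ℕ) (K : Set ℕ) : Prop :=
  (∀ y : Set ℕ, y ⊆ K → y.Infinite → (s : Set ℕ) ∪ y ∈ P) ∨
    (∀ y : Set ℕ, y ⊆ K → y.Infinite → (s : Set ℕ) ∪ y ∉ P)

theorem Hom.mono {P : Set (Set ℕ)} {s : Finset ℕ} {K K' : Set ℕ} (h : Hom P s K) (hK : K' ⊆ K) :
    Hom P s K' := by
  rcases h with h | h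
  · exact Or.inl fun y hy hyi => h y (hy.trans hK) hyi
  · exact Or.inr fun y hy hyi => h y (hy.trans hK) hyi

theorem finite_step {H : Set ℕ} {P : Set (Set ℕ)} (hP : CRamsey H P) (F : Finset (Finset ℕ))
    (K : Set ℕ) (hKH : K ⊆ H) (hK : K.Infinite) :
    ∃ K' : Set ℕ, K' ⊆ K ∧ K'.Infinite ∧ ∀ s ∈ F, Hom P s K' := by
  classical
  induction F using Finset.induction_on with
  | empty => exact ⟨K, subset_rfl, hK, fun s hs => absurd hs (Finset.notMem_empty s)⟩
  | insert s F hs ih =>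
    obtain ⟨K1, h1, h2, h3⟩ := ih
    obtain ⟨K2, h4, h5, h6⟩ := hP s K1 (h1.trans hKH) h2
    refine ⟨K2, h4.trans h1, h5, fun t ht => ?_⟩
    rcases Finset.mem_insert.1 ht with rfl | ht
    · exact h6
    · exact (h3 t ht).mono h4

/-- the fusion -/
theorem fusion (P : ℕ → Set (Set ℕ)) (H : Set ℕ) (hH : H.Infinite) (hP : ∀ i, CRamsey H (P i)) :
    ∃ h : ℕ → ℕ, StrictMono h ∧ Set.range h ⊆ H ∧ ∃ c : ℕ → Finset ℕ → Bool,
      ∀ (i : ℕ) (s : Finset ℕ), (∀ m ∈ s, ∃ j, j < i ∧ h j = m) →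
        ∀ y : Set ℕ, y ⊆ h '' Set.Ici i → y.Infinite →
          ((s : Set ℕ) ∪ y ∈ P i ↔ c i s = true) := by
  classical
  have step : ∀ (n : ℕ) (x : {p : Finset ℕ × Set ℕ // p.2 ⊆ H ∧ p.2.Infinite ∧
      ∀ m ∈ p.1, ∀ k ∈ p.2, m < k}),
      ∃ (y : {p : Finset ℕ × Set ℕ // p.2 ⊆ H ∧ p.2.Infinite ∧ ∀ m ∈ p.1, ∀ k ∈ p.2, m < k})
        (h : ℕ), h ∈ x.1.2 ∧ y.1.1 = insert h x.1.1 ∧ y.1.2 ⊆ x.1.2 ∧ (∀ k ∈ y.1.2, h < k) ∧
          ∀ s : Finset ℕ, s ⊆ x.1.1 → Hom (P n) s (insert h y.1.2) := by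
    rintro n ⟨⟨t, K⟩, hKH, hK, htK⟩
    obtain ⟨K1, h1, h2, h3⟩ := finite_step (hP n) t.powerset K hKH hK
    obtain ⟨h0, hh0⟩ := h2.nonempty
    refine ⟨⟨(insert h0 t, K1 \ Set.Iic h0), ?_, ?_, ?_⟩, h0, h1 hh0, rfl,
      Set.sdiff_subset.trans h1, ?_, ?_⟩
    · exact Set.sdiff_subset.trans (h1.trans hKH)
    · exact h2.sdiff (Set.finite_Iic h0)
    · intro m hm k hk
      rcases Finset.mem_insert.1 hm with rfl | hm
      · exact not_le.1 hk.2
      · exact htK m hm k (h1 hk.1)
    · intro k hk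
      exact not_le.1 hk.2
    · intro s hs
      refine (h3 s (Finset.mem_powerset.2 hs)).mono ?_
      exact Set.insert_subset hh0 Set.sdiff_subset
  choose nx hx p1 p2 p3 p4 p5 using step
  let x0 : {p : Finset ℕ × Set ℕ // p.2 ⊆ H ∧ p.2.Infinite ∧ ∀ m ∈ p.1, ∀ k ∈ p.2, m < k} :=
    ⟨(∅, H), subset_rfl, hH, fun m hm => absurd hm (Finset.notMem_empty m)⟩
  let x : ℕ → {p : Finset ℕ × Set ℕ // p.2 ⊆ H ∧ p.2.Infinite ∧ ∀ m ∈ p.1, ∀ k ∈ p.2, m < k} :=
    fun n => Nat.rec x0 (fun n y => nx n y) n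
  have hx1 : ∀ n, x (n + 1) = nx n (x n) := fun n => rfl
  let h : ℕ → ℕ := fun n => hx n (x n)
  have hmem : ∀ n, h n ∈ (x n).1.2 := fun n => p1 n (x n)
  have hK : ∀ n, (x (n + 1)).1.2 ⊆ (x n).1.2 := fun n => by rw [hx1]; exact p3 n (x n)
  have hKm : ∀ m n, n ≤ m → (x m).1.2 ⊆ (x n).1.2 := by
    intro m n hnm
    induction m, hnm using Nat.le_induction with
    | base => exact subset_rfl
    | succ m _ ih => exact (hK m).trans ih
  have hlt : ∀ n, ∀ k ∈ (x (n + 1)).1.2, h n < k := fun n => by rw [hx1]; exact p4 n (x n)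
  have hmono : StrictMono h := strictMono_nat_of_lt_succ fun n => hlt n _ (hmem (n + 1))
  have ht : ∀ n, (x n).1.1 = (Finset.range n).image h := by
    intro n
    induction n with
    | zero => rfl
    | succ n ih =>
      rw [hx1, p2 n (x n), ih, Finset.range_add_one, Finset.image_insert]
  refine ⟨h, hmono, ?_, fun i s => decide (∀ y : Set ℕ, y ⊆ h '' Set.Ici i → y.Infinite →
    (s : Set ℕ) ∪ y ∈ P i), ?_⟩
  · rintro _ ⟨n, rfl⟩
    exact (x n).2.1 (hmem n)
  · intro i s hs y hy hyi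
    have hsub : s ⊆ (x i).1.1 := by
      intro m hm
      rw [ht]
      obtain ⟨j, hj, rfl⟩ := hs m hm
      exact Finset.mem_image.2 ⟨j, Finset.mem_range.2 hj, rfl⟩
    have hhom := p5 i (x i) s hsub
    have hy2 : h '' Set.Ici i ⊆ insert (hx i (x i)) (nx i (x i)).1.2 := by
      rintro _ ⟨j, hj, rfl⟩
      rcases eq_or_lt_of_le (show i ≤ j from hj) with rfl | hj'
      · exact Set.mem_insert _ _
      · right
        have := hKm j (i + 1) hj' (hmem j)
        rwa [hx1] at this
    rw [decide_eq_true_iff]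
    rcases hhom with hh | hh
    · exact ⟨fun _ y' hy' hyi' => hh y' (hy'.trans hy2) hyi', fun _ => hh y (hy.trans hy2) hyi⟩
    · exact ⟨fun h1 => absurd h1 (hh y (hy.trans hy2) hyi), fun h1 => h1 y hy hyi⟩

theorem nth_range (φ : ℕ → ℕ) (hφ : StrictMono φ) :
    Nat.nth (· ∈ Set.range φ) = φ := by
  have hinf : (setOf (· ∈ Set.range φ)).Infinite := Set.infinite_range_of_injective hφ.injective
  have h1 : StrictMono (Nat.nth (· ∈ Set.range φ)) := Nat.nth_strictMono hinf
  have h2 : Set.range (Nat.nth (· ∈ Set.range φ)) = Set.range φ := by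
    rw [Nat.range_nth_of_infinite hinf]
    rfl
  exact (StrictMono.range_inj h1 hφ).1 h2

theorem cum_congr (w w' : ℕ → ℕ) (n : ℕ) (h : ∀ j, j ≤ n → w j = w' j) : cum w n = cum w' n := by
  unfold cum
  rw [h n le_rfl]
  congr 1
  refine Finset.sum_congr rfl fun i hi => ?_
  rw [Finset.mem_range] at hi
  rw [h i hi.le]

/-- enumeration of an infinite subset of the range of an increasing map -/
theorem enum_sub (φ : ℕ → ℕ) (y : Set ℕ) (hy : y ⊆ Set.range φ)
    (hyi : y.Infinite) : ∃ k : ℕ → ℕ, StrictMono k ∧ Set.range (φ ∘ k) = y := by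
  have hpre : (φ ⁻¹' y).Infinite := hyi.preimage hy
  refine ⟨Nat.nth (· ∈ φ ⁻¹' y), Nat.nth_strictMono hpre, ?_⟩
  have h1 := Nat.range_nth_of_infinite (p := (· ∈ φ ⁻¹' y)) hpre
  rw [Set.range_comp, h1]
  exact Set.image_preimage_eq_of_subset hy

theorem pair_mono (i : ℕ) : StrictMono fun n => Nat.pair i n :=
  fun _ _ h => Nat.pair_lt_pair_right i h

/-- **Main theorem.** -/
theorem universal (A : Set (Set ℕ))
    (hdet : ∀ f : (ℕ → ℕ) → (ℕ → ℕ), Continuous f → (∀ z, StrictMono (f z)) →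
      Determined {z | Set.range (f z) ∈ A})
    (X : Set ℕ)
    (hA : ¬ ∃ H : Set ℕ, H ⊆ X ∧ H.Infinite ∧
      ((∀ y : Set ℕ, y ⊆ H → y.Infinite → y ∈ A) ∨ (∀ y : Set ℕ, y ⊆ H → y.Infinite → y ∉ A))) :
    ∃ G : Set ℕ → ℕ → Bool, ∀ H : Set ℕ, H ⊆ X → H.Infinite → ∀ f : Set ℕ → ℕ → Bool,
      (∀ i, CRamsey H {y | f y i = true}) → ∃ y : Set ℕ, y ⊆ H ∧ y.Infinite ∧ G y = f y := by
  classical
  refine ⟨fun y i => decide (Set.range (fun n => Nat.nth (· ∈ y) (Nat.pair i n)) ∈ A), ?_⟩
  intro H hHX hH f hf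
  obtain ⟨h, hh, hhH, c, hc⟩ := fusion (fun i => {y | f y i = true}) H hH hf
  -- the strategies
  have hT : ∀ (i : ℕ) (b : Bool), ∃ τ : List ℕ → ℕ, ∀ z : ℕ → ℕ,
      (∀ n, z (2 * n + 1) = τ (hist z (2 * n + 1))) →
      (Set.range (h ∘ outcome (Set.range fun n => Nat.pair i n) z ∘ fun n => Nat.pair i n) ∈ A ↔
        b = true) := by
    intro i b
    cases b with
    | true =>
      obtain ⟨τ, hτ⟩ := force {y | y ∉ A} (fun f hf hm => det_compl A hdet f hf hm)
        (fun n => Nat.pair i n) (pair_mono i) h hh (by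
          intro g hg
          by_contra hcon
          apply hA
          refine ⟨Set.range (h ∘ g), ?_,
            Set.infinite_range_of_injective (hh.comp hg).injective, Or.inr ?_⟩
          · exact ((Set.range_comp_subset_range g h).trans hhH).trans hHX
          · intro y hy hyi hyA
            obtain ⟨k, hk, hky⟩ := enum_sub (h ∘ g) y hy hyi
            apply hcon
            refine ⟨k, hk, ?_⟩
            intro hc2
            apply hc2
            have : h ∘ g ∘ k = (h ∘ g) ∘ k := rfl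
            rw [this, hky]
            exact hyA)
      refine ⟨τ, fun z hz => ?_⟩
      have := hτ z hz
      simp only [Set.mem_ofPred_eq, not_not] at this
      exact ⟨fun _ => rfl, fun _ => this⟩
    | false =>
      obtain ⟨τ, hτ⟩ := force A hdet
        (fun n => Nat.pair i n) (pair_mono i) h hh (by
          intro g hg
          by_contra hcon
          apply hA
          refine ⟨Set.range (h ∘ g), ?_,
            Set.infinite_range_of_injective (hh.comp hg).injective, Or.inl ?_⟩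
          · exact ((Set.range_comp_subset_range g h).trans hhH).trans hHX
          · intro y hy hyi
            by_contra hyA
            obtain ⟨k, hk, hky⟩ := enum_sub (h ∘ g) y hy hyi
            apply hcon
            refine ⟨k, hk, ?_⟩
            have : h ∘ g ∘ k = (h ∘ g) ∘ k := rfl
            rw [this, hky]
            exact hyA)
      refine ⟨τ, fun z hz => ?_⟩
      have := hτ z hz
      exact ⟨fun h1 => absurd h1 this, fun h1 => absurd h1 (by decide)⟩
  choose T hT using hT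
  have hSown : ∀ i n, n ∈ (fun i => Set.range fun n => Nat.pair i n) i ↔
      (fun n => (Nat.unpair n).1) n = i := by
    intro i n
    constructor
    · rintro ⟨m, rfl⟩
      simp
    · intro hn
      refine ⟨(Nat.unpair n).2, ?_⟩
      have hn' : (Nat.unpair n).1 = i := hn
      simp only
      rw [← hn', Nat.pair_unpair]
  have hq : ∀ i n, n ∈ (fun i => Set.range fun n => Nat.pair i n) i →
      (fun i => Nat.pair i 0) i ≤ n := by
    rintro i _ ⟨m, rfl⟩
    exact (pair_mono i).monotone (Nat.zero_le m)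
  let sOf : ℕ → (ℕ → ℕ) → Finset ℕ := fun i v =>
    ((Finset.range (Nat.pair i 0)).filter (fun n => cum v n < i)).image (fun n => h (cum v n))
  let B : ℕ → List ℕ → Bool := fun i l => c i (sOf i (fun j => l.getD j 0))
  obtain ⟨w, hw⟩ := together T B (fun i => Set.range fun n => Nat.pair i n)
    (fun n => (Nat.unpair n).1) (fun i => Nat.pair i 0) hSown hq
  have hxm : StrictMono (cum w) := cum_strictMono w
  have hφ : StrictMono (h ∘ cum w) := hh.comp hxm
  refine ⟨Set.range (h ∘ cum w), ?_, Set.infinite_range_of_injective hφ.injective, ?_⟩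
  · exact (Set.range_comp_subset_range _ _).trans hhH
  funext i
  -- the value of G
  have hG : decide (Set.range (fun n => Nat.nth (· ∈ Set.range (h ∘ cum w)) (Nat.pair i n)) ∈ A) =
      B i (hist w (Nat.pair i 0)) := by
    rw [nth_range _ hφ]
    obtain ⟨z, hz1, hz2⟩ := hw i
    have h1 := hT i (B i (hist w (Nat.pair i 0))) z hz1
    rw [hz2] at h1
    have h2 : (fun n => (h ∘ cum w) (Nat.pair i n)) = h ∘ cum w ∘ fun n => Nat.pair i n := rfl
    rw [h2]
    by_cases hb : B i (hist w (Nat.pair i 0)) = true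
    · rw [hb]
      exact decide_eq_true (h1.2 hb)
    · rw [Bool.not_eq_true] at hb
      rw [hb]
      refine decide_eq_false fun h3 => ?_
      rw [h1.1 h3] at hb
      exact absurd hb (by decide)
  -- the value of f
  have hsOf : sOf i (fun j => (hist w (Nat.pair i 0)).getD j 0) = sOf i w := by
    have hcum : ∀ n, n < Nat.pair i 0 →
        cum (fun j => (hist w (Nat.pair i 0)).getD j 0) n = cum w n := by
      intro n hn
      exact cum_congr _ _ n fun j hj => hist_getD w (by omega)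
    simp only [sOf]
    ext m
    simp only [Finset.mem_image, Finset.mem_filter, Finset.mem_range]
    constructor
    · rintro ⟨n, ⟨hn1, hn2⟩, hn3⟩
      rw [hcum n hn1] at hn2 hn3
      exact ⟨n, ⟨hn1, hn2⟩, hn3⟩
    · rintro ⟨n, ⟨hn1, hn2⟩, hn3⟩
      refine ⟨n, ⟨hn1, ?_⟩, ?_⟩
      · rw [hcum n hn1]; exact hn2
      · rw [hcum n hn1]; exact hn3
  have hF : f (Set.range (h ∘ cum w)) i = B i (hist w (Nat.pair i 0)) := by
    have hle : ∀ n, n ≤ cum w n := fun n => hxm.id_le n
    have hyinf : ((h ∘ cum w) '' {n | i ≤ cum w n}).Infinite := by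
      refine Set.Infinite.image hφ.injective.injOn ?_
      refine Set.infinite_of_not_bddAbove ?_
      rintro ⟨N, hN⟩
      have : N + 1 + i ≤ N := hN (show i ≤ cum w (N + 1 + i) from
        le_trans (by omega) (hle _))
      omega
    have h1 := hc i (sOf i w) (by
      intro m hm
      simp only [sOf, Finset.mem_image, Finset.mem_filter, Finset.mem_range] at hm
      obtain ⟨n, ⟨_, hn2⟩, hn3⟩ := hm
      exact ⟨cum w n, hn2, hn3⟩) ((h ∘ cum w) '' {n | i ≤ cum w n}) (by
      rintro _ ⟨n, hn, rfl⟩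
      exact ⟨cum w n, hn, rfl⟩) hyinf
    have h2 : ((sOf i w : Finset ℕ) : Set ℕ) ∪ (h ∘ cum w) '' {n | i ≤ cum w n} =
        Set.range (h ∘ cum w) := by
      ext m
      constructor
      · rintro (hm | ⟨n, _, rfl⟩)
        · simp only [sOf, Finset.coe_image, Set.mem_image, Finset.mem_coe, Finset.mem_filter,
            Finset.mem_range] at hm
          obtain ⟨n, _, hn3⟩ := hm
          exact ⟨n, hn3⟩
        · exact ⟨n, rfl⟩
      · rintro ⟨n, rfl⟩
        by_cases hn : i ≤ cum w n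
        · right
          exact ⟨n, hn, rfl⟩
        · left
          simp only [sOf, Finset.coe_image, Set.mem_image, Finset.mem_coe, Finset.mem_filter,
            Finset.mem_range]
          refine ⟨n, ⟨?_, by omega⟩, rfl⟩
          have h3 := hle n
          have h4 : i ≤ Nat.pair i 0 := Nat.left_le_pair i 0
          omega
    rw [h2] at h1
    simp only [Set.mem_ofPred_eq] at h1
    have h5 : B i (hist w (Nat.pair i 0)) = c i (sOf i w) := by
      simp only [B]
      rw [hsOf]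
    rw [h5]
    by_cases hb : c i (sOf i w) = true
    · rw [hb]; exact h1.2 hb
    · rw [Bool.not_eq_true] at hb
      rw [hb]
      by_contra h6
      rw [Bool.not_eq_false] at h6
      rw [h1.1 h6] at hb
      exact absurd hb (by decide)
  simp only
  rw [hG, hF]

end Pool.Agent.Work.RamseyAD
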